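import Pool.Agent.H.MP_de9ce4_nt.B

namespace Pool.Agent.Results.MP_de9ce4_nt.Yes

open Finset Complex Real NumberField

/-- The polynomial `S_p` evaluated at `x`. -/
noncomputable def S (p : ℕ) (x : ℂ) : ℂ :=
  ∏ k ∈ Icc 1 ((p - 1) / 2), (x - cexp (2 * π * I * (k : ℂ) ^ 2 / p))

/-- The number of quadratic residues below `p / 12`. -/
def N (p : ℕ) [Fact p.Prime] : ℕ :=
  ((Ico 1 p).filter fun k : ℕ => 12 * k < p ∧ legendreSym p k = 1).card

/-- The rotated value, for class number `h`. -/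
noncomputable def T (p : ℕ) [Fact p.Prime] (h : ℕ) (ε : ℤ) : ℂ :=
  (-1) ^ (h / 2 + N p) * cexp (2 * π * I * ε * (p - 1) / 48) * S p (cexp (2 * π * I * ε / 12))

theorem result (p : ℕ) [Fact p.Prime] (hp : 3 < p) (K : Type) [Field K] [NumberField K]
    (hK : Module.finrank ℚ K = 2) (s : K) (hs : s ^ 2 = -p) (ε : ℤ) (hε : ε = 1 ∨ ε = -1) :
    (p % 24 = 1 → ∃ r : ℝ, 0 < r ∧ T p (classNumber K) ε = r) ∧
    (p % 24 = 7 → ∃ r : ℝ, 0 < r ∧ ε * T p (classNumber K) ε = r) := by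
  have H := Pool.Agent.H.MP_de9ce4_nt.main hp hK hs 1 ε hε
  simp only [Int.cast_one, mul_one] at H
  refine ⟨fun h => ?_, fun h => ?_⟩ <;> rcases hε with rfl | rfl
  · simpa only [T, S, N, pow_zero, one_mul] using H 0 (p / 12) (by omega) (by omega)
  · simpa only [T, S, N, pow_zero, one_mul] using H 0 (-(p / 12)) (by omega) (by omega)
  · simpa only [T, S, N, pow_zero, Int.cast_one] using H 0 (p / 12) (by omega) (by simp; omega)
  · simpa only [T, S, N, pow_one, Int.cast_neg, Int.cast_one] using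
      H 1 (-(p / 12) - 1) (by omega) (by simp; omega)

end Pool.Agent.Results.MP_de9ce4_nt.Yes
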